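import Pool.Agent.helper36.RH.Pv

set_option autoImplicit false
open MeasureTheory Metric Set Filter Topology
open scoped ENNReal

namespace Pool.Agent.helper36.R

/-- The open cube (square) with centre `x` and side `2 r`. -/
def Q (x : E2) (r : ℝ) : Set E2 := {y | ∀ i, |y i - x i| < r}

lemma Q_meas (x : E2) (r : ℝ) : MeasurableSet (Q x r) := by
  have : Q x r = ⋂ i : Fin 2, {y : E2 | |y i - x i| < r} := by
    ext y; simp [Q]
  rw [this]
  apply MeasurableSet.iInter
  intro i
  apply measurableSet_lt _ measurable_const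
  have h1 : Continuous (fun y : E2 => |y i - x i|) := by fun_prop
  exact h1.measurable

lemma ball_sub_Q (x : E2) (r : ℝ) : ball x r ⊆ Q x r := by
  intro y hy i
  rw [mem_ball, dist_eq_norm] at hy
  have h := abs_coord_le (y - x) i
  have h2 : (y - x) i = y i - x i := rfl
  rw [h2] at h
  linarith

lemma Q_sub_ball (x : E2) {r : ℝ} (hr : 0 < r) : Q x r ⊆ ball x (2 * r) := by
  intro y hy
  rw [mem_ball, dist_eq_norm]
  have h0 := hy 0
  have h1 := hy 1
  have h2 : ‖y - x‖ ^ 2 = (y 0 - x 0) ^ 2 + (y 1 - x 1) ^ 2 := by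
    rw [norm_sq_E2]; rfl
  have h3 : (y 0 - x 0) ^ 2 < r ^ 2 := by
    rw [← sq_abs]
    exact pow_lt_pow_left₀ h0 (abs_nonneg _) (by norm_num)
  have h4 : (y 1 - x 1) ^ 2 < r ^ 2 := by
    rw [← sq_abs]
    exact pow_lt_pow_left₀ h1 (abs_nonneg _) (by norm_num)
  nlinarith [norm_nonneg (y - x)]

lemma Q_vol_ne_top (x : E2) {r : ℝ} (hr : 0 < r) : volume (Q x r) ≠ ⊤ :=
  ne_top_of_le_ne_top (vol_ball_ne_top x (2 * r)) (measure_mono (Q_sub_ball x hr))

lemma Q_vol_ge (x : E2) {r : ℝ} (hr : 0 < r) : Real.pi * r ^ 2 ≤ volume.real (Q x r) := by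
  rw [← vol_ball_real x hr.le]
  exact ENNReal.toReal_mono (Q_vol_ne_top x hr) (measure_mono (ball_sub_Q x r))

lemma average_Q (x : E2) (r : ℝ) (u : E2 → ℝ) :
    (⨍ y in Q x r, u y) = (∫ y in Q x r, u y) / volume.real (Q x r) := by
  rw [MeasureTheory.average_eq, smul_eq_mul, measureReal_restrict_apply_univ, div_eq_inv_mul]

lemma average_Q_le (x : E2) {r : ℝ} (hr : 0 < r) {u : E2 → ℝ} (hu : ∀ y, 0 ≤ u y)
    (hi : IntegrableOn u (ball x (2 * r))) :
    (⨍ y in Q x r, u y) ≤ 4 * ⨍ y in ball x (2 * r), u y := by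
  have hpi := Real.pi_pos
  have h1 : (∫ y in Q x r, u y) ≤ ∫ y in ball x (2 * r), u y :=
    setIntegral_mono_set hi (Eventually.of_forall fun y => hu y)
      (Eventually.of_forall (Q_sub_ball x hr))
  have h0 : 0 ≤ ∫ y in Q x r, u y := setIntegral_nonneg (Q_meas x r) fun y _ => hu y
  have h2 := Q_vol_ge x hr
  rw [average_Q, average_ball x (by linarith : (0 : ℝ) < 2 * r)]
  calc (∫ y in Q x r, u y) / volume.real (Q x r) ≤ (∫ y in Q x r, u y) / (Real.pi * r ^ 2) := by
        apply div_le_div_of_nonneg_left h0 (by positivity) h2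
    _ ≤ (∫ y in ball x (2 * r), u y) / (Real.pi * r ^ 2) := by
        apply div_le_div_of_nonneg_right h1 (by positivity)
    _ = 4 * ((∫ y in ball x (2 * r), u y) / (Real.pi * (2 * r) ^ 2)) := by
        field_simp
        ring

lemma average_Q_nonneg (x : E2) (r : ℝ) {u : E2 → ℝ} (hu : ∀ y, 0 ≤ u y) :
    0 ≤ ⨍ y in Q x r, u y := by
  rw [average_Q]
  exact div_nonneg (setIntegral_nonneg (Q_meas x r) fun y _ => hu y) measureReal_nonneg

lemma ww_A2_Q (n : ℕ) (x : E2) {r : ℝ} (hr : 0 < r) :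
    (⨍ y in Q x r, ww n y) * (⨍ y in Q x r, (ww n y)⁻¹) ≤ 16 * AA n := by
  have h1 := average_Q_le x hr (u := ww n) (fun y => (ww_pos n y).le)
    (wt_integrable (KK_ge n) (ee n) (fc n) x (2 * r))
  have hinv : IntegrableOn (fun y => (ww n y)⁻¹) (ball x (2 * r)) := by
    unfold ww
    simp_rw [wt_inv]
    exact wt_integrable (KK_ge n) (fc n) (ee n) x (2 * r)
  have h2 := average_Q_le x hr (u := fun y => (ww n y)⁻¹) (fun y => (inv_pos.2 (ww_pos n y)).le) hinv
  have h3 := ww_A2 n x (R := 2 * r) (by linarith)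
  have h4 := average_Q_nonneg x r (u := fun y => (ww n y)⁻¹) (fun y => (inv_pos.2 (ww_pos n y)).le)
  have h5 : 0 ≤ ⨍ y in ball x (2 * r), ww n y :=
    average_nonneg_ball x (by linarith) (fun y => (ww_pos n y).le)
  calc (⨍ y in Q x r, ww n y) * (⨍ y in Q x r, (ww n y)⁻¹)
      ≤ (4 * ⨍ y in ball x (2 * r), ww n y) * (4 * ⨍ y in ball x (2 * r), (ww n y)⁻¹) :=
        mul_le_mul h1 h2 h4 (by positivity)
    _ = 16 * ((⨍ y in ball x (2 * r), ww n y) * (⨍ y in ball x (2 * r), (ww n y)⁻¹)) := by ring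
    _ ≤ 16 * AA n := by linarith

lemma b_bmo_Q (x : E2) {r : ℝ} (hr : 0 < r) :
    (⨍ y in Q x r, |b y - ⨍ z in Q x r, b z|) ≤ 192 := by
  have h2r : (0 : ℝ) < 2 * r := by linarith
  set c := ⨍ z in ball x (2 * r), b z with hc
  have hbB := b_integrable x h2r
  have hbQ : IntegrableOn b (Q x r) := hbB.mono_set (Q_sub_ball x hr)
  have hcB : IntegrableOn (fun _ : E2 => c) (ball x (2 * r)) := integrableOn_const (vol_ball_ne_top _ _)
  have hcQ : IntegrableOn (fun _ : E2 => c) (Q x r) := integrableOn_const (Q_vol_ne_top x hr)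
  have hV := Q_vol_ge x hr
  have hV0 : 0 < volume.real (Q x r) := lt_of_lt_of_le (by positivity) hV
  have habsQ : IntegrableOn (fun y => |b y - c|) (Q x r) := (hbQ.sub hcQ).abs
  have habsB : IntegrableOn (fun y => |b y - c|) (ball x (2 * r)) := (hbB.sub hcB).abs
  set d := ⨍ z in Q x r, b z with hd
  -- |c - d| ≤ average of |b - c|
  have h1 : |d - c| ≤ ⨍ y in Q x r, |b y - c| := by
    have h2 : d - c = (∫ y in Q x r, (b y - c)) / volume.real (Q x r) := by
      rw [integral_sub hbQ hcQ, setIntegral_const, smul_eq_mul, hd, average_Q]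
      field_simp
    rw [h2, average_Q, abs_div, abs_of_pos hV0]
    exact div_le_div_of_nonneg_right (abs_integral_le_integral_abs) hV0.le
  have h3 : (⨍ y in Q x r, |b y - d|) ≤ (⨍ y in Q x r, |b y - c|) + |d - c| := by
    rw [average_Q, average_Q, div_add' _ _ _ hV0.ne']
    apply div_le_div_of_nonneg_right _ hV0.le
    have h4 : (∫ y in Q x r, |b y - d|) ≤ ∫ y in Q x r, (|b y - c| + |d - c|) := by
      apply setIntegral_mono_on (hbQ.sub (integrableOn_const (Q_vol_ne_top x hr))).abs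
        (habsQ.add (integrableOn_const (Q_vol_ne_top x hr))) (Q_meas x r)
      intro y _
      change |b y - d| ≤ |b y - c| + |d - c|
      have h5 : b y - d = (b y - c) - (d - c) := by ring
      rw [h5]
      exact abs_sub _ _
    refine h4.trans (le_of_eq ?_)
    rw [integral_add habsQ (integrableOn_const (Q_vol_ne_top x hr)), setIntegral_const, smul_eq_mul]
    ring
  have h6 := average_Q_le x hr (u := fun y => |b y - c|) (fun y => abs_nonneg _) habsB
  have h7 := b_bmo x h2r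
  rw [← hc] at h7
  linarith

end Pool.Agent.helper36.R
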