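import Pool.Agent.helper36.RH.Cubes

set_option autoImplicit false
open MeasureTheory Metric Set Filter Topology
open scoped ENNReal

namespace Pool.Agent.helper36.R

lemma ff_abs_le (n : ℕ) (x : E2) : |ff n x| ≤ 1 := by
  rw [abs_of_nonneg (ff_nonneg n x)]
  exact ff_le_one n x

lemma lintegral_f_lt_top (n : ℕ) : (∫⁻ x, ENNReal.ofReal ((ff n x) ^ 2 * ww n x)) < ⊤ :=
  lt_of_le_of_lt (lintegral_f_le n) ENNReal.ofReal_lt_top

lemma lintegral_f_pos (n : ℕ) : 0 < (∫⁻ x, ENNReal.ofReal ((ff n x) ^ 2 * ww n x)) := by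
  have hN : 0 < 2 * NN n := by unfold NN; positivity
  set k : Fin (2 * NN n) × Fin (2 * NN n) := (⟨0, hN⟩, ⟨0, hN⟩) with hk
  have hK : (0 : ℝ) < KK n := by exact_mod_cast KK_ge n
  have h1 : (∫⁻ x in ball (fc n k) (rr n), ENNReal.ofReal (((KK n : ℝ) * 4 ^ (KK n))⁻¹)) ≤
      ∫⁻ x in ball (fc n k) (rr n), ENNReal.ofReal ((ff n x) ^ 2 * ww n x) := by
    apply lintegral_mono_ae
    filter_upwards [ae_restrict_mem measurableSet_ball] with x hx
    have hS : x ∈ SS n := mem_iUnion.2 ⟨k, hx⟩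
    have hff : ff n x = 1 := indicator_of_mem (s := SS n) (f := fun _ => (1 : ℝ)) hS
    rw [hff, ww_core_f n k x (mem_ball.1 hx)]
    simp
  refine lt_of_lt_of_le ?_ (h1.trans (setLIntegral_le_lintegral _ _))
  rw [setLIntegral_const, vol_ball _ (rr_pos' n)]
  have hr := rr_pos n
  have hpi := Real.pi_pos
  apply ENNReal.mul_pos
  · rw [ENNReal.ofReal_ne_zero_iff]; positivity
  · rw [ENNReal.ofReal_ne_zero_iff]; positivity

lemma ratio (n : ℕ) {t : ℝ} (ht0 : 0 ≤ t) (ht : t ≤ (mm n : ℝ) ^ 20) :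
    ENNReal.ofReal t * (∫⁻ x, ENNReal.ofReal ((ff n x) ^ 2 * ww n x)) ≤
      ∫⁻ x, ENNReal.ofReal ((gg n x) ^ 2 * ww n x) := by
  have hK : (0 : ℝ) < KK n := by exact_mod_cast KK_ge n
  have h4K : (0 : ℝ) < (4 : ℝ) ^ (KK n) := by positivity
  have hpi := Real.pi_gt_three
  have hm := mm_real_ge n
  have hr := rr_pos n
  have hN : (0 : ℝ) < NN n := by unfold NN; positivity
  have h6 : gl n * (KK n * 4 ^ (KK n)) = 2 * Real.pi * (mm n : ℝ) ^ 10 := by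
    unfold gl
    have h7 := rr_sq n
    calc KK n * (Real.pi * rr n ^ 2) * ((mm n : ℝ) ^ 2 / 128) * (KK n * 4 ^ (KK n))
        = (KK n : ℝ) ^ 2 * Real.pi * ((mm n : ℝ) ^ 2 / 128) * (rr n ^ 2 * 4 ^ (KK n)) := by ring
      _ = (16 * (mm n : ℝ) ^ 4) ^ 2 * Real.pi * ((mm n : ℝ) ^ 2 / 128) := by
          rw [h7, KK_real]; ring
      _ = 2 * Real.pi * (mm n : ℝ) ^ 10 := by ring
  refine (mul_le_mul_right (lintegral_f_le n) _).trans (le_trans ?_ (lintegral_g_ge n))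
  rw [← ENNReal.ofReal_mul ht0]
  apply ENNReal.ofReal_le_ofReal
  have h7 : (NN n : ℝ) ^ 2 * (Real.pi * rr n ^ 2) * (gl n ^ 2 * (KK n * 4 ^ (KK n))) =
      (Real.pi ^ 2 * (mm n : ℝ) ^ 20) * ((2 * (NN n : ℝ)) ^ 2 * (Real.pi * rr n ^ 2) *
        ((KK n : ℝ) * 4 ^ (KK n))⁻¹) := by
    have h8 : gl n ^ 2 * (KK n * 4 ^ (KK n)) =
        (2 * Real.pi * (mm n : ℝ) ^ 10) ^ 2 * ((KK n : ℝ) * 4 ^ (KK n))⁻¹ := by
      rw [← h6]
      field_simp
    rw [h8]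
    ring
  rw [h7]
  have hF : 0 ≤ (2 * (NN n : ℝ)) ^ 2 * (Real.pi * rr n ^ 2) * ((KK n : ℝ) * 4 ^ (KK n))⁻¹ :=
    mul_nonneg (mul_nonneg (sq_nonneg _) (mul_nonneg Real.pi_pos.le (sq_nonneg _)))
      (inv_nonneg.2 (mul_nonneg hK.le h4K.le))
  apply mul_le_mul_of_nonneg_right _ hF
  have h9 : (1 : ℝ) ≤ Real.pi ^ 2 := by nlinarith
  have h10 : (0 : ℝ) ≤ (mm n : ℝ) ^ 20 := by positivity
  nlinarith

/-- Choice of the configuration for a given bound. -/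
lemma choose_n {A : ℝ} (hA : 16 * 83521 * 3 ^ 4 ≤ A) :
    ∃ n : ℕ, 16 * AA n ≤ A ∧ A ≤ 10690688 * (mm n : ℝ) ^ 4 := by
  classical
  have hex : ∃ n : ℕ, A < 16 * 83521 * (mm (n + 1) : ℝ) ^ 4 := by
    obtain ⟨n, hn⟩ := exists_nat_gt A
    refine ⟨n, hn.trans_le ?_⟩
    have h1 : (1 : ℝ) ≤ (mm (n + 1) : ℝ) := by
      have := mm_real_ge (n + 1)
      linarith
    have h2 : (n : ℝ) ≤ (mm (n + 1) : ℝ) := by
      unfold mm
      push_cast
      have : (0 : ℝ) ≤ n := Nat.cast_nonneg n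
      linarith
    have h3 : (mm (n + 1) : ℝ) ≤ (mm (n + 1) : ℝ) ^ 4 := le_self_pow₀ h1 (by norm_num)
    nlinarith
  have hs := Nat.find_spec hex
  refine ⟨Nat.find hex, ?_, ?_⟩
  · unfold AA
    rcases Nat.eq_zero_or_pos (Nat.find hex) with h0 | h0
    · rw [h0]
      have : (mm 0 : ℝ) = 3 := by unfold mm; norm_num
      rw [this]
      linarith
    · obtain ⟨k, hk⟩ : ∃ k, Nat.find hex = k + 1 := ⟨Nat.find hex - 1, by omega⟩
      have h1 := Nat.find_min hex (m := k) (by omega)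
      rw [hk]
      rw [not_lt] at h1
      linarith
  · refine hs.le.trans ?_
    have h1 := mm_real_ge (Nat.find hex)
    have h2 : (mm (Nat.find hex + 1) : ℝ) = mm (Nat.find hex) + 2 := by
      unfold mm
      push_cast
      ring
    rw [h2]
    set m : ℝ := (mm (Nat.find hex) : ℝ) with hm
    have h3 : (m + 2) ^ 4 ≤ (5 / 3 * m) ^ 4 := pow_le_pow_left₀ (by linarith) (by linarith) 4
    have h4 : (5 / 3 * m) ^ 4 = 625 / 81 * m ^ 4 := by ring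
    have h5 : 0 ≤ m ^ 4 := by positivity
    nlinarith

end Pool.Agent.helper36.R
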