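import Pool.Agent.helper36.RFinal

set_option autoImplicit false
open MeasureTheory Metric Set Filter Topology
open scoped ENNReal

namespace Pool.Agent.helper36.R

/-- Polar coordinates in the plane for a product of an angular and a radial function. -/
lemma polar_mul (Ω : E2 → ℝ) (φ : ℝ → ℝ) :
    (∫ x : E2, Ω (‖x‖⁻¹ • x) * φ ‖x‖) =
      (∫ y : sphere (0 : E2) 1, Ω y ∂(volume : Measure E2).toSphere) *
      (∫ r : Ioi (0 : ℝ), φ r ∂(Measure.volumeIoiPow (Module.finrank ℝ E2 - 1))) := by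
  calc (∫ x : E2, Ω (‖x‖⁻¹ • x) * φ ‖x‖)
      = ∫ x : ({(0 : E2)}ᶜ : Set E2), Ω (‖x.1‖⁻¹ • x.1) * φ ‖x.1‖ ∂((volume : Measure E2).comap (↑)) := by
        rw [integral_subtype_comap (measurableSet_singleton _).compl
          (fun x : E2 => Ω (‖x‖⁻¹ • x) * φ ‖x‖), restrict_compl_singleton]
    _ = ∫ p : sphere (0 : E2) 1 × Ioi (0 : ℝ), Ω p.1 * φ p.2
          ∂((volume : Measure E2).toSphere.prod (Measure.volumeIoiPow (Module.finrank ℝ E2 - 1))) := by
        have h := (volume : Measure E2).measurePreserving_homeomorphUnitSphereProd.integral_comp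
          (Homeomorph.measurableEmbedding _)
          (fun p : sphere (0 : E2) 1 × Ioi (0 : ℝ) => Ω p.1 * φ p.2)
        rw [← h]
        apply integral_congr_ae
        filter_upwards with x
        simp only [homeomorphUnitSphereProd_apply_fst_coe, homeomorphUnitSphereProd_apply_snd_coe]
    _ = _ := integral_prod_mul (fun y : sphere (0 : E2) 1 => Ω y) (fun r : Ioi (0 : ℝ) => φ r)

lemma ann_integral (Ω : E2 → ℝ) (s t : ℝ) (φ : ℝ → ℝ) :
    (∫ y in {y : E2 | s < ‖y‖ ∧ ‖y‖ < t}, Ω (‖y‖⁻¹ • y) * φ ‖y‖) =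
      (∫ y : sphere (0 : E2) 1, Ω y ∂(volume : Measure E2).toSphere) *
      (∫ r : Ioi (0 : ℝ), (Ioo s t).indicator φ r ∂(Measure.volumeIoiPow (Module.finrank ℝ E2 - 1))) := by
  rw [← polar_mul]
  have hm : MeasurableSet {y : E2 | s < ‖y‖ ∧ ‖y‖ < t} := by
    apply MeasurableSet.inter
    · exact measurableSet_lt measurable_const measurable_norm
    · exact measurableSet_lt measurable_norm measurable_const
  rw [← integral_indicator hm]
  apply integral_congr_ae
  filter_upwards with y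
  by_cases hy : s < ‖y‖ ∧ ‖y‖ < t
  · rw [indicator_of_mem (s := {y : E2 | s < ‖y‖ ∧ ‖y‖ < t}) hy, indicator_of_mem (s := Ioo s t) hy]
  · rw [indicator_of_notMem (s := {y : E2 | s < ‖y‖ ∧ ‖y‖ < t}) hy,
      indicator_of_notMem (s := Ioo s t) hy, mul_zero]

/-- `Om` has mean zero on the circle. -/
lemma Om_sphere_zero : (∫ y : sphere (0 : E2) 1, Om y ∂(volume : Measure E2).toSphere) = 0 := by
  have h1 := ann_integral Om 1 2 (fun _ => 1)
  have h2 := ann_integral (fun _ => 1) 1 2 (fun _ => 1)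
  simp only [mul_one] at h1 h2
  rw [Om_mean_zero] at h1
  have h3 : (∫ y in {y : E2 | 1 < ‖y‖ ∧ ‖y‖ < 2}, (1 : ℝ)) = 3 * Real.pi := by
    change (∫ y in Ann, (1 : ℝ)) = _
    rw [setIntegral_const, volume_Ann, smul_eq_mul, mul_one]
  rw [h3] at h2
  have h4 : (∫ r : Ioi (0 : ℝ), (Ioo (1 : ℝ) 2).indicator (fun _ => (1 : ℝ)) r
      ∂(Measure.volumeIoiPow (Module.finrank ℝ E2 - 1))) ≠ 0 := by
    intro h0
    rw [h0, mul_zero] at h2
    have := Real.pi_pos
    linarith
  rcases mul_eq_zero.1 h1.symm with h | h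
  · exact h
  · exact absurd h h4

/-- The kernel `Ω(y/|y|)/|y|^2`. -/
noncomputable def Kn (y : E2) : ℝ := Om (‖y‖⁻¹ • y) / ‖y‖ ^ 2

lemma Kn_ann_zero (s t : ℝ) : (∫ y in {y : E2 | s < ‖y‖ ∧ ‖y‖ < t}, Kn y) = 0 := by
  have h1 := ann_integral Om s t (fun r => (r ^ 2)⁻¹)
  rw [Om_sphere_zero, zero_mul] at h1
  rw [← h1]
  rfl

lemma cc_nonneg : 0 ≤ cc := by
  unfold cc
  have := Real.pi_gt_three
  have := sU_le
  exact div_nonneg sU_nonneg (by linarith)

lemma cc_le : cc ≤ 1 := by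
  unfold cc
  have := Real.pi_gt_three
  have := sU_le
  rw [div_le_one (by linarith)]
  linarith

lemma Om_abs_le (y : E2) : |Om y| ≤ 1 := by
  unfold Om
  have h1 := cc_nonneg
  have h2 := cc_le
  by_cases h : y ∈ UU
  · rw [indicator_of_mem h]
    have : 1 + cc - cc = 1 := by ring
    rw [this, abs_one]
  · rw [indicator_of_notMem h, zero_sub, abs_neg, abs_of_nonneg h1]
    exact h2

lemma Kn_meas : Measurable Kn := by
  unfold Kn
  have h1 : Measurable (fun y : E2 => ‖y‖⁻¹ • y) := measurable_norm.inv.smul measurable_id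
  exact (Om_meas.comp h1).div (measurable_norm.pow_const 2)

lemma Kn_abs_le {ε : ℝ} (hε : 0 < ε) {y : E2} (hy : ε < ‖y‖) : |Kn y| ≤ 1 / ε ^ 2 := by
  unfold Kn
  rw [abs_div, abs_of_nonneg (show (0 : ℝ) ≤ ‖y‖ ^ 2 by positivity)]
  apply div_le_div₀ (by norm_num) (Om_abs_le _) (by positivity)
  exact pow_le_pow_left₀ hε.le hy.le 2

end Pool.Agent.helper36.R
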