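import Pool.Agent.helper36.RH.Polar

set_option autoImplicit false
open MeasureTheory Metric Set Filter Topology
open scoped ENNReal

namespace Pool.Agent.helper36.R

lemma ff_nonneg (n : ℕ) (y : E2) : 0 ≤ ff n y := by
  unfold ff
  by_cases h : y ∈ SS n
  · rw [indicator_of_mem h]; norm_num
  · rw [indicator_of_notMem h]

lemma ff_le_one (n : ℕ) (y : E2) : ff n y ≤ 1 := by
  unfold ff
  by_cases h : y ∈ SS n
  · rw [indicator_of_mem h]
  · rw [indicator_of_notMem h]; norm_num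

lemma SS_vol_ne_top (n : ℕ) : volume (SS n) ≠ ⊤ := by
  have hb : Bornology.IsBounded (SS n) := by
    unfold SS
    rw [Bornology.isBounded_iUnion]
    intro k
    exact isBounded_ball
  exact hb.measure_lt_top.ne

lemma ff_integrable (n : ℕ) : Integrable (ff n) := by
  have h : Integrable ((SS n).indicator (fun _ => (1 : ℝ))) :=
    (integrableOn_const (SS_vol_ne_top n)).integrable_indicator (SS_meas n)
  exact h

/-- The truncated singular integral. -/
noncomputable def tr (n : ℕ) (ε : ℝ) (x : E2) : ℝ :=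
  ∫ y in {y : E2 | ε < ‖y‖}, Om (‖y‖⁻¹ • y) / ‖y‖ ^ 2 * ff n (x - y)

lemma big_meas (ε : ℝ) : MeasurableSet {y : E2 | ε < ‖y‖} :=
  measurableSet_lt measurable_const measurable_norm

lemma big_meas' (ε : ℝ) (x : E2) : MeasurableSet {y : E2 | ε < dist x y} :=
  measurableSet_lt measurable_const (measurable_const.dist measurable_id)

lemma tr_eq (n : ℕ) (ε : ℝ) (x : E2) :
    (∫ y in {y : E2 | ε < dist x y}, ker n x y) = b x * tr n ε x := by
  unfold tr
  rw [← integral_indicator (big_meas ε), ← integral_indicator (big_meas' ε x), ← integral_const_mul]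
  rw [← integral_sub_left_eq_self
    (fun y => ({y : E2 | ε < dist x y}.indicator (fun y => ker n x y)) y) volume x]
  apply integral_congr_ae
  filter_upwards with y
  have hd : dist x (x - y) = ‖y‖ := by rw [dist_eq_norm]; congr 1; abel
  by_cases hy : ε < ‖y‖
  · rw [indicator_of_mem (s := {y : E2 | ε < ‖y‖}) hy,
      indicator_of_mem (s := {y : E2 | ε < dist x y}) (show ε < dist x (x - y) by rw [hd]; exact hy)]
    unfold ker
    have h1 : x - (x - y) = y := by abel
    rw [h1]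
    by_cases hS : x - y ∈ SS n
    · rw [b_SS hS]
      ring
    · unfold ff
      rw [indicator_of_notMem hS]
      ring
  · rw [indicator_of_notMem (s := {y : E2 | ε < ‖y‖}) hy, mul_zero,
      indicator_of_notMem (s := {y : E2 | ε < dist x y}) (show ¬ ε < dist x (x - y) by rw [hd]; exact hy)]

lemma tr_integrable (n : ℕ) {ε : ℝ} (hε : 0 < ε) (x : E2) :
    IntegrableOn (fun y => Kn y * ff n (x - y)) {y : E2 | ε < ‖y‖} := by
  have h1 : Integrable (fun y => 1 / ε ^ 2 * ff n (x - y)) :=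
    ((ff_integrable n).comp_sub_left x).const_mul _
  apply Integrable.mono' h1.integrableOn
  · exact (Kn_meas.mul ((ff_meas n).comp (measurable_const.sub measurable_id))).aestronglyMeasurable
  · filter_upwards [ae_restrict_mem (big_meas ε)] with y hy
    rw [Real.norm_eq_abs, abs_mul, abs_of_nonneg (ff_nonneg n (x - y))]
    exact mul_le_mul_of_nonneg_right (Kn_abs_le hε hy) (ff_nonneg n (x - y))

lemma tr_stable (n : ℕ) (x : E2) {δ a : ℝ} (h : ∀ y : E2, ‖y‖ < δ → ff n (x - y) = a)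
    {ε : ℝ} (hε : 0 < ε) (hεδ : ε < δ) :
    tr n ε x = ∫ y in {y : E2 | δ ≤ ‖y‖}, Kn y * ff n (x - y) := by
  have hu : {y : E2 | ε < ‖y‖} = {y : E2 | ε < ‖y‖ ∧ ‖y‖ < δ} ∪ {y : E2 | δ ≤ ‖y‖} := by
    ext y
    simp only [mem_ofPred_eq, mem_union]
    constructor
    · intro hy
      rcases lt_or_ge ‖y‖ δ with h' | h'
      · exact Or.inl ⟨hy, h'⟩
      · exact Or.inr h'
    · rintro (hy | hy)
      · exact hy.1
      · exact lt_of_lt_of_le hεδ hy
  have hm2 : MeasurableSet {y : E2 | δ ≤ ‖y‖} := measurableSet_le measurable_const measurable_norm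
  have hm1 : MeasurableSet {y : E2 | ε < ‖y‖ ∧ ‖y‖ < δ} :=
    (big_meas ε).inter (measurableSet_lt measurable_norm measurable_const)
  have hdisj : Disjoint {y : E2 | ε < ‖y‖ ∧ ‖y‖ < δ} {y : E2 | δ ≤ ‖y‖} := by
    rw [Set.disjoint_left]
    intro y hy hy'
    exact absurd hy.2 (not_lt.2 hy')
  have hi := tr_integrable n hε x
  have hi1 : IntegrableOn (fun y => Kn y * ff n (x - y)) {y : E2 | ε < ‖y‖ ∧ ‖y‖ < δ} :=
    hi.mono_set (by rw [hu]; exact subset_union_left)
  have hi2 : IntegrableOn (fun y => Kn y * ff n (x - y)) {y : E2 | δ ≤ ‖y‖} :=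
    hi.mono_set (by rw [hu]; exact subset_union_right)
  change (∫ y in {y : E2 | ε < ‖y‖}, Kn y * ff n (x - y)) = _
  rw [hu, setIntegral_union hdisj hm2 hi1 hi2]
  have h0 : (∫ y in {y : E2 | ε < ‖y‖ ∧ ‖y‖ < δ}, Kn y * ff n (x - y)) = 0 := by
    have h1 : (∫ y in {y : E2 | ε < ‖y‖ ∧ ‖y‖ < δ}, Kn y * ff n (x - y)) =
        ∫ y in {y : E2 | ε < ‖y‖ ∧ ‖y‖ < δ}, Kn y * a := by
      apply setIntegral_congr_fun hm1
      intro y hy
      simp only [h y hy.2]
    rw [h1, integral_mul_const, Kn_ann_zero, zero_mul]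
  rw [h0, zero_add]

/-- The singular integral of the test function. -/
noncomputable def Tf (n : ℕ) (x : E2) : ℝ :=
  limUnder (𝓝[>] (0 : ℝ)) (fun ε : ℝ => tr n ε x)

lemma Tf_tendsto_of (n : ℕ) (x : E2) {δ a : ℝ} (hδ : 0 < δ)
    (h : ∀ y : E2, ‖y‖ < δ → ff n (x - y) = a) :
    Tendsto (fun ε : ℝ => tr n ε x) (𝓝[>] 0) (𝓝 (Tf n x)) := by
  have h1 : Tendsto (fun ε : ℝ => tr n ε x) (𝓝[>] 0)
      (𝓝 (∫ y in {y : E2 | δ ≤ ‖y‖}, Kn y * ff n (x - y))) := by
    apply Tendsto.congr' _ tendsto_const_nhds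
    have hev : ∀ᶠ ε : ℝ in 𝓝[>] (0 : ℝ), 0 < ε := self_mem_nhdsWithin
    have hev2 : ∀ᶠ ε : ℝ in 𝓝[>] (0 : ℝ), ε < δ := nhdsWithin_le_nhds (Iio_mem_nhds hδ)
    filter_upwards [hev, hev2] with ε h1 h2
    exact (tr_stable n x h h1 h2).symm
  exact tendsto_nhds_limUnder ⟨_, h1⟩

lemma Tf_tendsto (n : ℕ) : ∀ᵐ x : E2, Tendsto (fun ε : ℝ => tr n ε x) (𝓝[>] 0) (𝓝 (Tf n x)) := by
  have h0 : ∀ᵐ x : E2, ∀ k : Fin (2 * NN n) × Fin (2 * NN n), x ∉ sphere (fc n k) (rr n) := by
    rw [ae_all_iff]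
    intro k
    rw [ae_iff]
    have : {a : E2 | ¬ a ∉ sphere (fc n k) (rr n)} = sphere (fc n k) (rr n) := by
      ext; simp
    rw [this]
    exact Measure.addHaar_sphere_of_ne_zero volume _ (rr_pos n).ne'
  filter_upwards [h0] with x hx
  by_cases hS : x ∈ SS n
  · have hopen : IsOpen (SS n) := isOpen_iUnion fun _ => isOpen_ball
    obtain ⟨δ, hδ, hsub⟩ := Metric.isOpen_iff.1 hopen x hS
    refine Tf_tendsto_of n x (a := 1) hδ fun y hy => ?_
    have : x - y ∈ SS n := hsub (by rw [mem_ball, dist_eq_norm]; simpa using hy)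
    exact indicator_of_mem this _
  · have hcl : IsClosed (⋃ k : Fin (2 * NN n) × Fin (2 * NN n), closedBall (fc n k) (rr n)) :=
      isClosed_iUnion_of_finite fun _ => isClosed_closedBall
    have hxc : x ∈ (⋃ k : Fin (2 * NN n) × Fin (2 * NN n), closedBall (fc n k) (rr n))ᶜ := by
      intro hmem
      rw [mem_iUnion] at hmem
      obtain ⟨k, hk⟩ := hmem
      rw [mem_closedBall] at hk
      rcases lt_or_eq_of_le hk with h | h
      · exact hS (mem_iUnion.2 ⟨k, mem_ball.2 h⟩)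
      · exact hx k (mem_sphere.2 h)
    obtain ⟨δ, hδ, hsub⟩ := Metric.isOpen_iff.1 hcl.isOpen_compl x hxc
    refine Tf_tendsto_of n x (a := 0) hδ fun y hy => ?_
    have h1 : x - y ∈ (⋃ k : Fin (2 * NN n) × Fin (2 * NN n), closedBall (fc n k) (rr n))ᶜ :=
      hsub (by rw [mem_ball, dist_eq_norm]; simpa using hy)
    have h2 : x - y ∉ SS n := by
      intro h
      apply h1
      unfold SS at h
      rw [mem_iUnion] at h ⊢
      obtain ⟨k, hk⟩ := h
      exact ⟨k, ball_subset_closedBall hk⟩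
    exact indicator_of_notMem h2 _

lemma gg_eq (n : ℕ) : ∀ᵐ x : E2, gg n x = b x * Tf n x := by
  filter_upwards [Tf_tendsto n] with x hx
  have h1 := pv_tendsto n x
  have h2 : Tendsto (fun ε : ℝ => ∫ y in {y : E2 | ε < dist x y}, ker n x y) (𝓝[>] 0)
      (𝓝 (b x * Tf n x)) := by
    have h3 : (fun ε : ℝ => ∫ y in {y : E2 | ε < dist x y}, ker n x y) =
        fun ε : ℝ => b x * tr n ε x := by
      funext ε
      exact tr_eq n ε x
    rw [h3]
    exact hx.const_mul (b x)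
  exact tendsto_nhds_unique h1 h2

lemma b_mul_ff (n : ℕ) (y : E2) : b y * ff n y = 0 := by
  by_cases hS : y ∈ SS n
  · rw [b_SS hS, zero_mul]
  · unfold ff
    rw [indicator_of_notMem hS, mul_zero]

end Pool.Agent.helper36.R
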